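import Pool.Agent.helper46.T6L.SpecO

set_option autoImplicit false

/-!
# T6L: row OFD, the tuples of discriminant `D f ^ 2` with given `ff f Z`
-/

namespace Pool.Agent.T6L

open Finset NumberField Pool.Agent.helper3.FT Pool.Agent.helper47.RA Pool.Agent.T5
open Pool.Agent.helper26.T5 (nn LEMB LPR LAW LP LPA HLN HPR HSQ HID HCL HGA)
open Pool.Agent.helper28.LT (rad)
open Pool.Agent.helper28.LT (FC_step FC_ideal unit_pow)

/-- at most twelve generators -/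
theorem OFD_gen {K : Type} [Field K] [NumberField K] (Q : QF K) (hD : Q.D < 0)
    (J : Ideal (𝓞 K)) (I : Finset (𝓞 K)) (h : ∀ y ∈ I, Ideal.span {y} = J) :
    (I.card : ℝ) ≤ 12 := by
  classical
  rcases I.eq_empty_or_nonempty with rfl | ⟨y₀, hy₀⟩
  · simp
  have h1 : I ⊆ (Polynomial.nthRoots 12 (1 : 𝓞 K)).toFinset.image (fun e => y₀ * e) := by
    intro y hy
    have h2 : Ideal.span {y₀} = Ideal.span {y} := (h y₀ hy₀).trans (h y hy).symm
    obtain ⟨e, he⟩ := Ideal.span_singleton_eq_span_singleton.1 h2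
    refine Finset.mem_image.2 ⟨(e : 𝓞 K), ?_, he⟩
    rw [Multiset.mem_toFinset, Polynomial.mem_nthRoots (by norm_num)]
    exact unit_pow Q hD _ e.isUnit
  have h3 : I.card ≤ 12 :=
    calc I.card ≤ ((Polynomial.nthRoots 12 (1 : 𝓞 K)).toFinset.image (fun e => y₀ * e)).card :=
          Finset.card_le_card h1
      _ ≤ (Polynomial.nthRoots 12 (1 : 𝓞 K)).toFinset.card := Finset.card_image_le
      _ ≤ (Polynomial.nthRoots 12 (1 : 𝓞 K)).card := Multiset.toFinset_card_le _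
      _ ≤ 12 := Polynomial.card_nthRoots 12 1
  exact_mod_cast h3

/-- an ideal whose norm is a fifth power -/
theorem OFD_dvd {K : Type} [Field K] [NumberField K] (A : Ideal (𝓞 K)) (b : ℕ)
    (hA : Ideal.absNorm A = b ^ 5) : A ∣ Ideal.span {((b ^ 5 : ℕ) : 𝓞 K)} := by
  rw [Ideal.dvd_span_singleton]
  have h1 := Ideal.absNorm_mem A
  rw [hA] at h1
  exact h1

theorem OFD_ne {K : Type} [Field K] [NumberField K] (A : Ideal (𝓞 K)) (b : ℕ) (hb : 1 ≤ b)
    (hA : Ideal.absNorm A = b ^ 5) : A ≠ ⊥ := by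
  intro h
  rw [h, Ideal.absNorm_bot] at hA
  have : 0 < b ^ 5 := by positivity
  omega

/-- Row OFD. -/
theorem OFD (hAELE : AELE_stmt) (hODC : ODC_stmt) (hHCL : HCL) (hOGA : OGA_stmt) (hOGT : OGT_stmt) (hOAR : OAR_stmt) : OFD_stmt := by
  classical
  intro K _ _ Q f b Y X hfin hD hf hp5 hY hX F hF
  have data : ∀ t : {t // t ∈ F}, ∃ (θ : 𝓞 K) (z : ℕ) (a A : Ideal (𝓞 K)),
      (∃ α γ u v θ' : 𝓞 K, Els Q f t.1 α γ u v θ θ') ∧ 1 ≤ z ∧ t.1.2.2.2 = (z : ℤ) ∧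
      ff f z = b ∧ a ≠ ⊥ ∧ Prim a ∧ Ideal.absNorm a * b = z ∧ Ideal.absNorm A = b ^ 5 ∧
      Ideal.span {θ} = a ^ 5 * A := by
    rintro ⟨t, ht⟩
    obtain ⟨hT, hZ, hZY, hl, hlX, hdis, hb⟩ := hF t ht
    obtain ⟨α, γ, u, v, θ, θ', hE⟩ := hAELE K Q f t hT hf hdis hZ.ne' hl.ne'
    have hz : t.2.2.2 = ((t.2.2.2.toNat : ℕ) : ℤ) := (Int.toNat_of_nonneg hZ.le).symm
    have hz1 : 1 ≤ t.2.2.2.toNat := by omega
    obtain ⟨a, A, ha0, haP, haN, hAN, haA⟩ := hODC K Q f t α γ u v θ θ' t.2.2.2.toNat hD hT hf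
      hZ hl hE hz
    rw [hb] at haN hAN
    exact ⟨θ, t.2.2.2.toNat, a, A, ⟨α, γ, u, v, θ', hE⟩, hz1, hz, hb, ha0, haP, haN, hAN, haA⟩
  choose θ z a A hE hz1 hz hfz ha0 haP haN hAN haA using data
  have hR1 : (0 : ℝ) ≤ 6 ^ f.primeFactors.card *
      (1 + 2 * Real.pi * Y / ((b : ℝ) * rb f b * √|(Q.D : ℝ)|)) + 1 := by positivity
  have hR2 : (0 : ℝ) ≤ 7 ^ f.primeFactors.card *
      (1 + 2 * Real.pi * X / ((sl f b : ℝ) * √|(Q.D : ℝ)|)) := by positivity
  have hzY : ∀ t, (z t : ℝ) ≤ Y := by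
    intro t
    have e1 := (hF t.1 t.2).2.2.1
    rw [hz t] at e1
    exact_mod_cast e1
  have hb1 : ∀ t : {t // t ∈ F}, 1 ≤ b := by
    intro t
    have e1 := (hOAR.1 f (z t) hf (hz1 t)).1
    rw [hfz t] at e1
    exact e1
  have main : (F.attach.card : ℝ) ≤
      ((b ^ 5).divisors.card : ℝ) ^ 2 * (((Nat.card {x : ClassGroup (𝓞 K) // x ^ 5 = 1} : ℝ) *
      (6 ^ f.primeFactors.card * (1 + 2 * Real.pi * Y / ((b : ℝ) * rb f b * √|(Q.D : ℝ)|)) + 1)) *
      (12 * (7 ^ f.primeFactors.card * (1 + 2 * Real.pi * X / ((sl f b : ℝ) * √|(Q.D : ℝ)|))))) := by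
    refine FC_step F.attach A _ _ (by positivity) (fun I hI => ?_) fun z₂ s₂ hs₂ => ?_
    · rcases I.eq_empty_or_nonempty with rfl | ⟨y₀, hy₀⟩
      · simp only [Finset.card_empty, Nat.cast_zero]
        positivity
      obtain ⟨x₀, hx₀, _⟩ := hI y₀ hy₀
      refine FC_ideal hfin (b ^ 5) (Nat.one_le_pow _ _ (hb1 x₀)) I fun y hy => ?_
      obtain ⟨x, _, rfl⟩ := hI y hy
      exact OFD_dvd _ _ (hAN x)
    refine FC_step s₂ a _ _ (by positivity) (fun I hI => ?_) fun z₃ s₃ hs₃ => ?_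
    · rcases I.eq_empty_or_nonempty with rfl | ⟨y₀, hy₀⟩
      · simp only [Finset.card_empty, Nat.cast_zero]
        positivity
      obtain ⟨x₀, hx₀, _⟩ := hI y₀ hy₀
      have e1 : A x₀ = z₂ := (hs₂ x₀ hx₀).2
      have hz₂ : Ideal.absNorm z₂ = b ^ 5 := by
        rw [← e1]
        exact hAN x₀
      refine hHCL K Q z₂ _ (OFD_ne z₂ b (hb1 x₀) hz₂) hR1 I (fun y hy => ?_) fun T hT hTp => ?_
      · obtain ⟨x, hx, rfl⟩ := hI y hy
        refine ⟨ha0 x, θ x, ?_⟩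
        rw [← (hs₂ x hx).2]
        exact (haA x).symm
      · refine hOGA K Q f b z₂ Y hD hf hp5 (hb1 x₀) hz₂ hY T (fun y hy => ?_) hTp
        obtain ⟨x, hx, rfl⟩ := hI y (hT hy)
        have e3 : A x = z₂ := (hs₂ x hx).2
        refine ⟨ha0 x, haP x, ?_, ?_, θ x, ?_, ?_⟩
        · intro p hp hpf hpb hpa
          have e4 := (hOAR.1 f (z x) hf (hz1 x)).2.2.2.1 p hp hpf (by rw [hfz x]; exact hpb)
          apply e4
          rw [← haN x]
          exact Dvd.dvd.mul_right hpa b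
        · have e5 := hzY x
          rw [← haN x] at e5
          push_cast at e5
          linarith
        · rw [← e3]
          exact haA x
        · obtain ⟨α, γ, u, v, θ', hE'⟩ := hE x
          exact ⟨_, hE'.yθ⟩
    refine FC_step s₃ θ _ _ (by positivity) (fun I hI => ?_) fun z₄ s₄ hs₄ => ?_
    · refine OFD_gen Q hD (z₃ ^ 5 * z₂) I fun y hy => ?_
      obtain ⟨x, hx, rfl⟩ := hI y hy
      have e1 : a x = z₃ := (hs₃ x hx).2
      have e2 : A x = z₂ := (hs₂ x (hs₃ x hx).1).2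
      rw [← e1, ← e2]
      exact haA x
    · rcases s₄.eq_empty_or_nonempty with rfl | ⟨x₀, hx₀⟩
      · simp only [Finset.card_empty, Nat.cast_zero]
        positivity
      have hzz : ∀ x ∈ s₄, z x = Ideal.absNorm z₃ * b := by
        intro x hx
        rw [← haN x, (hs₃ x (hs₄ x hx).1).2]
      have hsl : sl f (Ideal.absNorm z₃ * b) = sl f b := by
        have e6 := (hOAR.1 f (z x₀) hf (hz1 x₀)).2.2.2.2
        rw [hfz x₀, hzz x₀ hx₀] at e6
        exact e6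
      have e1 : (s₄.image Subtype.val).card = s₄.card :=
        Finset.card_image_of_injective _ Subtype.val_injective
      rw [← e1, ← hsl]
      refine hOGT K Q f (Ideal.absNorm z₃ * b) z₄ X hD hf hp5 hX _ fun t ht => ?_
      obtain ⟨x, hx, rfl⟩ := Finset.mem_image.1 ht
      obtain ⟨hT, hZ, hZY, hl, hlX, hdis, -⟩ := hF x.1 x.2
      refine ⟨hT, hZ, ?_, hl, hlX, ?_⟩
      · rw [hz x, hzz x hx]
      have e2 : θ x = z₄ := (hs₄ x hx).2
      rw [← e2]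
      exact hE x
  rw [Finset.card_attach] at main
  refine main.trans (le_of_eq ?_)
  ring

end Pool.Agent.T6L
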