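import Pool.Agent.helper46.T6L.SpecO

set_option autoImplicit false

/-!
# T6L: row OGL, output one
-/

namespace Pool.Agent.T6L

open Finset NumberField Pool.Agent.helper3.FT Pool.Agent.helper47.RA Pool.Agent.T5
open Pool.Agent.helper26.T5 (nn LEMB LPR LAW LP LPA HLN HPR HSQ HID HCL HGA)
open Pool.Agent.helper28.LT (rad)

/-- a bounded family of finite sums of a function has a small tail -/
theorem OGL_tail (g : ℕ → ℝ) (C ε : ℝ) (hε : 0 < ε)
    (hC : ∀ s : Finset ℕ, (∀ f ∈ s, 1 ≤ f) → ∑ f ∈ s, g f ≤ C) :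
    ∃ F₀ : ℕ, ∀ s : Finset ℕ, (∀ f ∈ s, F₀ < f) → ∑ f ∈ s, g f ≤ ε := by
  classical
  set T : Set ℝ := {x | ∃ s : Finset ℕ, (∀ f ∈ s, 1 ≤ f) ∧ x = ∑ f ∈ s, g f} with hT
  have hb : BddAbove T := by
    refine ⟨C, ?_⟩
    rintro x ⟨s, hs, rfl⟩
    exact hC s hs
  have hne : T.Nonempty := ⟨0, ∅, by simp, by simp⟩
  obtain ⟨x, ⟨s₀, hs₀, rfl⟩, hx⟩ := exists_lt_of_lt_csSup hne (sub_lt_self (sSup T) hε)
  refine ⟨s₀.sup id, fun s hs => ?_⟩
  have hdisj : Disjoint s₀ s := by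
    rw [Finset.disjoint_left]
    intro f hf hf'
    have h1 := hs f hf'
    have h2 : f ≤ s₀.sup id := Finset.le_sup (f := id) hf
    omega
  have h3 : ∑ f ∈ s₀ ∪ s, g f ≤ sSup T := by
    refine le_csSup hb ⟨s₀ ∪ s, ?_, rfl⟩
    intro f hf
    rcases Finset.mem_union.1 hf with h | h
    · exact hs₀ f h
    · have := hs f h
      omega
  rw [Finset.sum_union hdisj] at h3
  linarith

/-- Row OGL. -/
theorem OGL (hOSD : OSD_stmt) (hOSS : OSS_stmt) : OGL_stmt := by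
  classical
  rintro ⟨h, hh⟩
  obtain ⟨C₁, hC₁, osd⟩ := hOSD
  obtain ⟨C₂, hC₂, oss1, oss2⟩ := hOSS
  refine ⟨C₁ * (C₂ + 1), by nlinarith, ?_⟩
  intro P hP
  have hP0 : 0 < P := by linarith
  obtain ⟨F₀, hF₀⟩ := OGL_tail gw C₂ (1 / P) (by positivity) oss1
  refine ⟨F₀, ?_⟩
  intro N hN F hF
  have hN0 : 0 < N := by linarith
  choose! f D hfund hdis h5 hbig using fun t (ht : t ∈ F) => (hF t ht).2
  have hf1 : ∀ t ∈ F, 1 ≤ f t := by
    intro t ht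
    rcases Nat.eq_zero_or_pos (f t) with h0 | h0
    · exfalso
      have d1 := (hF t ht).1.d1
      rw [hdis t ht, h0] at d1
      push_cast at d1
      norm_num at d1
      linarith
    · exact h0
  set s : Finset ℕ := F.image f with hs
  have hcard : (F.card : ℝ) = ∑ y ∈ s, ((F.filter (fun t => f t = y)).card : ℝ) := by
    rw [Finset.card_eq_sum_card_image f F]
    push_cast
    rfl
  have hfib : ∀ y ∈ s, ((F.filter (fun t => f t = y)).card : ℝ) ≤ C₁ * gw y * N := by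
    intro y hy
    obtain ⟨t₀, ht₀, rfl⟩ := Finset.mem_image.1 hy
    refine osd h hh N (f t₀) hN (hf1 t₀ ht₀) (h5 t₀ ht₀) _ fun t ht => ?_
    obtain ⟨htF, hft⟩ := Finset.mem_filter.1 ht
    refine ⟨(hF t htF).1, D t, hfund t htF, ?_⟩
    rw [hdis t htF, hft]
  have hs2 : ∑ y ∈ s.filter (fun y => ∃ p : ℕ, p.Prime ∧ p ∣ y ∧ P < p), gw y ≤ C₂ / P := by
    refine oss2 P _ hP fun y hy => ?_
    obtain ⟨hys, hyp⟩ := Finset.mem_filter.1 hy
    obtain ⟨t₀, ht₀, rfl⟩ := Finset.mem_image.1 hys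
    exact ⟨hf1 t₀ ht₀, hyp⟩
  have hs1 : ∑ y ∈ s.filter (fun y => ¬ ∃ p : ℕ, p.Prime ∧ p ∣ y ∧ P < p), gw y ≤ 1 / P := by
    refine hF₀ _ fun y hy => ?_
    obtain ⟨hys, hyp⟩ := Finset.mem_filter.1 hy
    obtain ⟨t₀, ht₀, rfl⟩ := Finset.mem_image.1 hys
    exact (hbig t₀ ht₀).resolve_right hyp
  have hgw : ∑ y ∈ s, gw y ≤ (C₂ + 1) / P := by
    rw [← Finset.sum_filter_add_sum_filter_not s (fun y => ∃ p : ℕ, p.Prime ∧ p ∣ y ∧ P < p)]
    have e : (C₂ + 1) / P = C₂ / P + 1 / P := by ring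
    rw [e]
    exact add_le_add hs2 hs1
  have hpow : 1 / P ≤ P ^ (-(0.98 : ℝ)) := by
    rw [one_div, ← Real.rpow_neg_one]
    exact Real.rpow_le_rpow_of_exponent_le hP (by norm_num)
  calc (F.card : ℝ) = ∑ y ∈ s, ((F.filter (fun t => f t = y)).card : ℝ) := hcard
    _ ≤ ∑ y ∈ s, C₁ * gw y * N := Finset.sum_le_sum hfib
    _ = C₁ * N * ∑ y ∈ s, gw y := by
        rw [Finset.mul_sum]
        exact Finset.sum_congr rfl fun y _ => by ring
    _ ≤ C₁ * N * ((C₂ + 1) / P) := mul_le_mul_of_nonneg_left hgw (by positivity)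
    _ = C₁ * (C₂ + 1) * (1 / P) * N := by ring
    _ ≤ C₁ * (C₂ + 1) * P ^ (-(0.98 : ℝ)) * N := by
        refine mul_le_mul_of_nonneg_right (mul_le_mul_of_nonneg_left hpow ?_) hN0.le
        have : 0 ≤ C₂ := by linarith
        positivity

end Pool.Agent.T6L
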