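import Pool.Agent.helper46.T6L.SpecO

set_option autoImplicit false

/-!
# T6L: row OGS, output two
-/

namespace Pool.Agent.T6L

open Finset NumberField Pool.Agent.helper3.FT Pool.Agent.helper47.RA Pool.Agent.T5
open Pool.Agent.helper26.T5 (nn LEMB LPR LAW LP LPA HLN HPR HSQ HID HCL HGA)
open Pool.Agent.helper28.LT (rad)

theorem OGS_fld (D : ℤ) (hD : IsFund D) : Nonempty (Fld D) := by
  obtain ⟨K, i1, i2, Q, hfin, hdisc, hQD⟩ := exists_QF D hD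
  exact ⟨⟨K, Q, hfin, hdisc, hQD⟩⟩

theorem OGS_pos (h : ℤ → ℕ) (hh : ∀ (K : Type) [Field K] [NumberField K], Module.finrank ℚ K = 2 →
    h (NumberField.discr K) = Nat.card {x : ClassGroup (𝓞 K) // x ^ 5 = 1}) (D : ℤ) (hD : IsFund D) :
    (0 : ℝ) ≤ (h D : ℝ) - 1 := by
  obtain ⟨E⟩ := OGS_fld D hD
  have h1 := hh E.K E.fin
  rw [E.dK] at h1
  have h2 : 0 < Nat.card {x : ClassGroup (𝓞 E.K) // x ^ 5 = 1} := by
    have : Nonempty {x : ClassGroup (𝓞 E.K) // x ^ 5 = 1} := ⟨⟨1, one_pow 5⟩⟩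
    exact Nat.card_pos
  rw [← h1] at h2
  have h3 : (1 : ℝ) ≤ h D := by exact_mod_cast h2
  linarith

/-- Row OGS. -/
theorem OGS (hOGD : OGD_stmt) : OGS_stmt := by
  classical
  intro F₀
  refine ⟨1 + F₀ * (2 + 4 * Real.pi * F₀) ^ 2, 256 * (F₀ : ℝ) ^ 4 + 16 * (F₀ : ℝ) ^ 2 + 1, ?_, ?_⟩
  · have : (0 : ℝ) ≤ F₀ * (2 + 4 * Real.pi * F₀) ^ 2 := by positivity
    linarith
  intro h hh N hN F hF
  have hN1 : 1 ≤ N := by
    have : (0 : ℝ) ≤ 256 * (F₀ : ℝ) ^ 4 + 16 * (F₀ : ℝ) ^ 2 := by positivity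
    linarith
  have hN0 : 0 < N := by linarith
  have hsN : 0 < √N := Real.sqrt_pos.2 hN0
  set S : Finset ℤ := (Ico (-⌊N⌋) 0).filter IsFund with hS
  have hSF : ∀ D ∈ S, IsFund D := fun D hD => (mem_filter.1 hD).2
  have hterm : ∀ D ∈ S, (0 : ℝ) ≤ (h D : ℝ) - 1 := fun D hD => OGS_pos h hh D (hSF D hD)
  have hsum0 : (0 : ℝ) ≤ ∑ D ∈ S, ((h D : ℝ) - 1) := sum_nonneg hterm
  set B : ℝ := (2 + 4 * Real.pi * F₀) ^ 2 with hB
  have hB0 : 0 ≤ B := by positivity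
  set G : ℤ × ℕ → Finset Tpl := fun x => F.filter (fun t => dis t = x.1 * (x.2 : ℤ) ^ 2 ∧
    IsCoprime (x.2 : ℤ) (t.2.2.2 * lam t)) with hG
  have hsub : F ⊆ (S ×ˢ Icc 1 F₀).biUnion G := by
    intro t ht
    obtain ⟨hT, f, D₀, hD₀, hdis, hf1, hf2, hco⟩ := hF t ht
    rw [mem_biUnion]
    refine ⟨(D₀, f), ?_, ?_⟩
    · rw [mem_product]
      refine ⟨?_, mem_Icc.2 ⟨hf1, hf2⟩⟩
      rw [hS, mem_filter, mem_Ico]
      have d1 := hT.d1
      have d2 := hT.d2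
      rw [hdis] at d1 d2
      push_cast at d1 d2
      have hf1' : (1 : ℝ) ≤ f := by exact_mod_cast hf1
      have hf2' : (1 : ℝ) ≤ (f : ℝ) ^ 2 := one_le_pow₀ hf1'
      have e1 : (D₀ : ℝ) < 0 := by
        by_contra hcon
        push Not at hcon
        have : 0 ≤ (D₀ : ℝ) * (f : ℝ) ^ 2 := by positivity
        linarith
      have e2 : -(D₀ : ℝ) ≤ N := by nlinarith
      refine ⟨⟨?_, by exact_mod_cast e1⟩, hD₀⟩
      have e3 : -D₀ ≤ ⌊N⌋ := by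
        rw [Int.le_floor]
        push_cast
        exact e2
      linarith
    · rw [hG, mem_filter]
      exact ⟨ht, hdis, hco⟩
  have hone : ∀ x ∈ S ×ˢ Icc 1 F₀, ((G x).card : ℝ) ≤ ((h x.1 : ℝ) - 1) * B := by
    rintro ⟨D, f⟩ hx
    obtain ⟨hDS, hf⟩ := mem_product.1 hx
    obtain ⟨hf1, hf2⟩ := mem_Icc.1 hf
    simp only at hDS hf1 hf2 ⊢
    rcases (G (D, f)).eq_empty_or_nonempty with he | ⟨t₀, ht₀⟩
    · rw [he, card_empty, Nat.cast_zero]
      exact mul_nonneg (hterm D hDS) hB0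
    have hf0 : (0 : ℝ) < f := by exact_mod_cast hf1
    have hF0 : (0 : ℝ) < F₀ := lt_of_lt_of_le hf0 (by exact_mod_cast hf2)
    have hfF : (f : ℝ) ≤ F₀ := by exact_mod_cast hf2
    obtain ⟨E⟩ := OGS_fld D (hSF D hDS)
    have hcl := hh E.K E.fin
    rw [E.dK] at hcl
    have hQD : E.Q.D = D := E.hD
    obtain ⟨ht₀F, hdis₀, -⟩ := mem_filter.1 ht₀
    obtain ⟨hT₀, -⟩ := hF t₀ ht₀F
    have d1 := hT₀.d1
    rw [hdis₀] at d1
    push_cast at d1
    have hDlow : N / (4 * (F₀ : ℝ) ^ 2) ≤ -(D : ℝ) := by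
      rw [div_le_iff₀ (by positivity)]
      have e1 : (f : ℝ) ^ 2 ≤ (F₀ : ℝ) ^ 2 := pow_le_pow_left₀ hf0.le hfF 2
      have e2 : 0 ≤ -(D : ℝ) := by
        by_contra hcon
        push Not at hcon
        have : 0 < (D : ℝ) := by linarith
        have : 0 < (D : ℝ) * (f : ℝ) ^ 2 := by positivity
        linarith
      nlinarith
    have hF4 : 256 * (F₀ : ℝ) ^ 4 < N := by
      have : (0 : ℝ) ≤ 16 * (F₀ : ℝ) ^ 2 := by positivity
      linarith
    have hF2 : 16 * (F₀ : ℝ) ^ 2 < N := by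
      have : (0 : ℝ) ≤ 256 * (F₀ : ℝ) ^ 4 := by positivity
      linarith
    have hs16 : 16 * (F₀ : ℝ) ^ 2 < √N := by
      refine Real.lt_sqrt_of_sq_lt ?_
      have : (16 * (F₀ : ℝ) ^ 2) ^ 2 = 256 * (F₀ : ℝ) ^ 4 := by ring
      rw [this]
      exact hF4
    have hlt4 : 4 * √N < N / (4 * (F₀ : ℝ) ^ 2) := by
      rw [lt_div_iff₀ (by positivity)]
      have e1 : √N * √N = N := Real.mul_self_sqrt hN0.le
      nlinarith
    have hlt5 : 4 < N / (4 * (F₀ : ℝ) ^ 2) := by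
      rw [lt_div_iff₀ (by positivity)]
      nlinarith
    have hD4 : E.Q.D < -4 := by
      rw [hQD]
      have : (D : ℝ) < -4 := by linarith
      exact_mod_cast this
    have h1 := hOGD E.K E.Q f (√N) (√N) E.fin hD4 hf1 hsN hsN (by
      rw [hQD]
      linarith) (G (D, f)) (by
      intro t ht
      obtain ⟨htF, hdis, hco⟩ := mem_filter.1 ht
      obtain ⟨hT, -⟩ := hF t htF
      refine ⟨hT.tt, hT.z1, hT.z2, hT.l1, hT.l2, ?_, hco⟩
      rw [hQD]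
      exact hdis)
    rw [hQD, ← hcl] at h1
    refine h1.trans ?_
    have hDneg : (D : ℝ) < 0 := by
      have : 0 < N / (4 * (F₀ : ℝ) ^ 2) := by positivity
      linarith
    have habs : |(D : ℝ)| = -(D : ℝ) := abs_of_neg hDneg
    have hw : 2 * Real.pi * √N / √|(D : ℝ)| ≤ 4 * Real.pi * F₀ := by
      rw [habs]
      have e0 : 0 < √(-(D : ℝ)) := Real.sqrt_pos.2 (by linarith)
      rw [div_le_iff₀ e0]
      have e1 : √N ≤ 2 * F₀ * √(-(D : ℝ)) := by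
        refine Real.sqrt_le_iff.2 ⟨by positivity, ?_⟩
        rw [mul_pow, mul_pow, Real.sq_sqrt (by linarith)]
        rw [div_le_iff₀ (by positivity)] at hDlow
        linarith
      have hpi : 0 < Real.pi := Real.pi_pos
      calc 2 * Real.pi * √N ≤ 2 * Real.pi * (2 * F₀ * √(-(D : ℝ))) :=
            mul_le_mul_of_nonneg_left e1 (by positivity)
        _ = 4 * Real.pi * F₀ * √(-(D : ℝ)) := by ring
    have hw0 : 0 ≤ 2 * Real.pi * √N / √|(D : ℝ)| := by positivity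
    rw [mul_assoc]
    refine mul_le_mul_of_nonneg_left ?_ (hterm D hDS)
    rw [hB, sq]
    refine mul_le_mul ?_ ?_ ?_ ?_
    · linarith
    · linarith
    · linarith
    · positivity
  have hcard : (F.card : ℝ) ≤ ∑ x ∈ S ×ˢ Icc 1 F₀, ((G x).card : ℝ) := by
    have e1 : F.card ≤ ∑ x ∈ S ×ˢ Icc 1 F₀, (G x).card := (card_le_card hsub).trans card_biUnion_le
    exact_mod_cast e1
  refine hcard.trans ((sum_le_sum hone).trans ?_)
  rw [sum_product]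
  have e2 : ∑ D ∈ S, ∑ f ∈ Icc 1 F₀, ((h (D, f).1 : ℝ) - 1) * B = F₀ * B * ∑ D ∈ S, ((h D : ℝ) - 1) := by
    rw [mul_sum]
    refine sum_congr rfl fun D _ => ?_
    change ∑ _f ∈ Icc 1 F₀, ((h D : ℝ) - 1) * B = _
    rw [sum_const, Nat.card_Icc, nsmul_eq_mul, Nat.add_sub_cancel]
    ring
  rw [e2]
  refine mul_le_mul_of_nonneg_right ?_ hsum0
  linarith

end Pool.Agent.T6L
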